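import Pool.Agent.Helper81.JT.PTJ
import Pool.Agent.Helper15.AF.Goals4

/-!
# Project AF, packet CPM: the samples are computed in polynomial time
-/

set_option autoImplicit false

namespace Pool.Agent.Helper13.AF

open Pool.Agent.Helper78.JT Pool.Agent.Helper78.AO Pool.Agent.Helper78.DT Pool.Agent.Helper81.CC
  Pool.Agent.Helper16.DT Pool.Agent.Helper81.JT Pool.Agent.Helper78.CG Pool.Agent.Helper15.AF

/-- the scalar product with the small-bias string -/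
theorem pip {γ : Type} [ToData γ] (hPty : PtyStmt) {k n α β m y j : γ → ℕ} (hk : PolyTime k)
    (hn : PolyTime n) (hkn : ∀ g, 2 ^ k g ≤ n g) (hα : PolyTime α) (hβ : PolyTime β)
    (hm : PolyTime m) (hy : PolyTime y) (hj : PolyTime j) :
    PolyTime fun g => ip (Yf (k g) (α g) (β g)) (m g) (y g) (j g) := by
  have h1 : PolyTime fun z : γ × ℕ => z.1 := PolyTime.fst PolyTime.id'
  have h2 : PolyTime fun z : γ × ℕ => z.2 := PolyTime.snd PolyTime.id'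
  have hb : PolyTime fun z : γ × ℕ => bt (y z.1) z.2 := by
    unfold bt
    exact PolyTime.decide_eq ((Pool.Agent.Helper87.DT.ptn (γ × ℕ)).2 (fun _ => 2) (fun z => y z.1)
      (fun z => z.2) (PolyTime.const 2) (PolyTime.comp hy h1) h2) (PolyTime.const 1)
  have hY : PolyTime fun z : γ × ℕ => Yf (k z.1) (α z.1) (β z.1) (j z.1 + z.2) :=
    hPty (γ × ℕ) (fun z => k z.1) (fun z => n z.1) (fun z => α z.1) (fun z => β z.1)
      (fun z => j z.1 + z.2) (PolyTime.comp hk h1) (PolyTime.comp hn h1) (fun z => hkn z.1)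
      (PolyTime.comp hα h1) (PolyTime.comp hβ h1) (PolyTime.add (PolyTime.comp hj h1) h2)
  unfold ip
  exact PolyTime.decide_eq (PolyTime.mod (PolyTime.length (PolyTime.filter
    (f := fun g i => bt (y g) i && Yf (k g) (α g) (β g) (j g + i)) (PolyTime.range hm)
    (PolyTime.and hb hY))) (PolyTime.const 2)) (PolyTime.const 1)

theorem pQk {γ : Type} [ToData γ] {L n : γ → ℕ} (hL : PolyTime L) (hn : PolyTime n)
    (hLn : ∀ x, 2 ^ L x ≤ n x) : PolyTime fun g => Qk (8 * L g) := by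
  have h := (Pool.Agent.Helper3.DT.ptl γ (fun g => n g ^ 8) (fun g => 8 * L g) L
    (PolyTime.pow hn 8) (PolyTime.mul (PolyTime.const 8) hL) hL).2.2.2.2 fun g => by
      show 2 ^ (8 * L g) ≤ n g ^ 8
      rw [mul_comm, pow_mul]
      exact Nat.pow_le_pow_left (hLn g) 8
  exact PolyTime.pred h

theorem pmj {γ : Type} [ToData γ] (a e : ℕ) {L : γ → ℕ} (hL : PolyTime L)
    (hL2 : ∀ x, 2 ≤ L x) : PolyTime fun g => mj a e (L g) := by
  unfold mj
  refine PolyTime.mul (pDj a e hL hL2) ?_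
  refine PolyTime.congr (ppow2 a e 1 (bb_pos a e) hL hL2) fun g => ?_
  rw [one_mul]

/-- The bits of the samples (compare `pbit` of CG). -/
theorem pbitm {α : Type} [ToData α] (hPty : PtyStmt) (c a β e : ℕ) {L n : α → ℕ}
    (hL : PolyTime L) (hL2 : ∀ x, 2 ≤ L x) (hn : PolyTime n) (hLn : ∀ x, 2 ^ L x ≤ n x) :
    PolyTime fun w : (α × ℕ) × ℕ => bitm c a β e (L w.1.1) w.1.2 w.2 := by
  have hx : PolyTime fun z : α × ℕ => z.1 := PolyTime.fst PolyTime.id'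
  have hLz : PolyTime fun z : α × ℕ => L z.1 := PolyTime.comp hL hx
  -- on triples
  have hzz : PolyTime fun w : (α × ℕ) × ℕ => w.1 := PolyTime.fst PolyTime.id'
  have hLw : PolyTime fun w : (α × ℕ) × ℕ => L w.1.1 :=
    PolyTime.comp (g := fun z : α × ℕ => L z.1) hLz hzz
  have hnz : PolyTime fun z : α × ℕ => n z.1 := PolyTime.comp hn hx
  have hnw : PolyTime fun w : (α × ℕ) × ℕ => n w.1.1 :=
    PolyTime.comp (g := fun z : α × ℕ => n z.1) hnz hzz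
  have hvw : PolyTime fun w : (α × ℕ) × ℕ => w.2 := PolyTime.snd PolyTime.id'
  have hiw : PolyTime fun w : (α × ℕ) × ℕ => w.1.2 :=
    PolyTime.comp (g := fun z : α × ℕ => z.2) (PolyTime.snd PolyTime.id') hzz
  have hQw : PolyTime fun w : (α × ℕ) × ℕ => Qk (8 * L w.1.1) := pQk hLw hnw fun w => hLn _
  -- on quadruples
  have hww : PolyTime fun y : ((α × ℕ) × ℕ) × ℕ => y.1 := PolyTime.fst PolyTime.id'
  have hLy : PolyTime fun y : ((α × ℕ) × ℕ) × ℕ => L y.1.1.1 :=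
    PolyTime.comp (g := fun w : (α × ℕ) × ℕ => L w.1.1) hLw hww
  have hny : PolyTime fun y : ((α × ℕ) × ℕ) × ℕ => n y.1.1.1 :=
    PolyTime.comp (g := fun w : (α × ℕ) × ℕ => n w.1.1) hnw hww
  have hiy : PolyTime fun y : ((α × ℕ) × ℕ) × ℕ => y.1.1.2 :=
    PolyTime.comp (g := fun w : (α × ℕ) × ℕ => w.1.2) hiw hww
  have hjy : PolyTime fun y : ((α × ℕ) × ℕ) × ℕ => y.2 := PolyTime.snd PolyTime.id'
  have hQy : PolyTime fun y : ((α × ℕ) × ℕ) × ℕ => Qk (8 * L y.1.1.1) :=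
    PolyTime.comp (g := fun w : (α × ℕ) × ℕ => Qk (8 * L w.1.1)) hQw hww
  have hAw : PolyTime fun y : ((α × ℕ) × ℕ) × ℕ => dg (Pj (cM c) (L y.1.1.1)) y.1.1.2 y.2 :=
    (Pool.Agent.Helper87.DT.ptn _).2 _ _ _ (pPj (cM c) hLy) hiy hjy
  have hdivw : PolyTime fun w : (α × ℕ) × ℕ =>
      w.1.2 / Pj (cM c) (L w.1.1) ^ (tj a e (L w.1.1) + 2) :=
    pdivpow Pool.Agent.Helper3.DT.ptl cpwS hiw (pPj (cM c) hLw)
      (PolyTime.add (ptj' a e hLw) (PolyTime.const 2)) fun w => Pj_pos (cM c) (hL2 _)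
  have hdivy : PolyTime fun y : ((α × ℕ) × ℕ) × ℕ =>
      y.1.1.2 / Pj (cM c) (L y.1.1.1) ^ (tj a e (L y.1.1.1) + 2) :=
    pdivpow Pool.Agent.Helper3.DT.ptl cpwS hiy (pPj (cM c) hLy)
      (PolyTime.add (ptj' a e hLy) (PolyTime.const 2)) fun y => Pj_pos (cM c) (hL2 _)
  have hdivy2 : PolyTime fun y : ((α × ℕ) × ℕ) × ℕ =>
      y.1.1.2 / Pj (cM c) (L y.1.1.1) ^ (tj a e (L y.1.1.1) + 2) /
        (Qk (8 * L y.1.1.1) * Qk (8 * L y.1.1.1) *
          Zl (Rj a e (L y.1.1.1)) (dj a e (L y.1.1.1)) (e + 1)) := by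
    refine PolyTime.congr (pZl a e hLy (fun y => hL2 _) hny (fun y => hLn _)
      (PolyTime.div hdivy (PolyTime.mul hQy hQy)) (e + 1) le_rfl) fun y => ?_
    rw [Nat.div_div_eq_div_mul]
  -- the partition
  have hpt : PolyTime fun w : (α × ℕ) × ℕ => pt (Pj (cM c) (L w.1.1))
      (Kj (cM c) a β e (L w.1.1)) (tj a e (L w.1.1)) (L w.1.1)
      (dg (Pj (cM c) (L w.1.1)) w.1.2) w.2 :=
    ppt Pool.Agent.Helper87.DT.ptn (pPj (cM c) hLw) (pKj (cM c) a β e hLw) (ptj' a e hLw) hLw hvw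
      hAw fun w => Pj_pos (cM c) (hL2 _)
  -- the code of the part
  have hqPw : PolyTime fun w : (α × ℕ) × ℕ => qj (cM c) (L w.1.1) * Pj (cM c) (L w.1.1) :=
    PolyTime.mul (pqj (cM c) hLw) (pPj (cM c) hLw)
  have hs2 : PolyTime fun y : ((α × ℕ) × ℕ) × ℕ =>
      dg (qj (cM c) (L y.1.1.1) * (qj (cM c) (L y.1.1.1) * Pj (cM c) (L y.1.1.1)))
      (y.1.1.2 / Pj (cM c) (L y.1.1.1) ^ (tj a e (L y.1.1.1) + 2) /
        (Qk (8 * L y.1.1.1) * Qk (8 * L y.1.1.1) *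
          Zl (Rj a e (L y.1.1.1)) (dj a e (L y.1.1.1)) (e + 1))) y.2 :=
    (Pool.Agent.Helper87.DT.ptn _).2 _ _ _ (PolyTime.mul (pqj (cM c) hLy)
      (PolyTime.mul (pqj (cM c) hLy) (pPj (cM c) hLy))) hdivy2 hjy
  have hs1 : PolyTime fun w : (α × ℕ) × ℕ =>
      dg (qj (cM c) (L w.1.1) * (qj (cM c) (L w.1.1) * Pj (cM c) (L w.1.1)))
      (w.1.2 / Pj (cM c) (L w.1.1) ^ (tj a e (L w.1.1) + 2) /
        (Qk (8 * L w.1.1) * Qk (8 * L w.1.1) *
          Zl (Rj a e (L w.1.1)) (dj a e (L w.1.1)) (e + 1)))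
      (pt (Pj (cM c) (L w.1.1)) (Kj (cM c) a β e (L w.1.1)) (tj a e (L w.1.1)) (L w.1.1)
        (dg (Pj (cM c) (L w.1.1)) w.1.2) w.2) :=
    PolyTime.comp (g := fun y : ((α × ℕ) × ℕ) × ℕ =>
        dg (qj (cM c) (L y.1.1.1) * (qj (cM c) (L y.1.1.1) * Pj (cM c) (L y.1.1.1)))
        (y.1.1.2 / Pj (cM c) (L y.1.1.1) ^ (tj a e (L y.1.1.1) + 2) /
          (Qk (8 * L y.1.1.1) * Qk (8 * L y.1.1.1) *
            Zl (Rj a e (L y.1.1.1)) (dj a e (L y.1.1.1)) (e + 1))) y.2)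
      (f := fun w : (α × ℕ) × ℕ => (w, pt (Pj (cM c) (L w.1.1)) (Kj (cM c) a β e (L w.1.1))
        (tj a e (L w.1.1)) (L w.1.1) (dg (Pj (cM c) (L w.1.1)) w.1.2) w.2)) hs2
      (PolyTime.pair PolyTime.id' hpt)
  -- the seeds
  have hQQ : PolyTime fun w : (α × ℕ) × ℕ =>
      w.1.2 / Pj (cM c) (L w.1.1) ^ (tj a e (L w.1.1) + 2) /
        (Qk (8 * L w.1.1) * Qk (8 * L w.1.1)) := PolyTime.div hdivw (PolyTime.mul hQw hQw)
  have hα1 : PolyTime fun w : (α × ℕ) × ℕ =>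
      w.1.2 / Pj (cM c) (L w.1.1) ^ (tj a e (L w.1.1) + 2) % Qk (8 * L w.1.1) :=
    PolyTime.mod hdivw hQw
  have hβ1 : PolyTime fun w : (α × ℕ) × ℕ =>
      w.1.2 / Pj (cM c) (L w.1.1) ^ (tj a e (L w.1.1) + 2) / Qk (8 * L w.1.1) %
        Qk (8 * L w.1.1) := PolyTime.mod (PolyTime.div hdivw hQw) hQw
  have hk : PolyTime fun w : (α × ℕ) × ℕ => 8 * L w.1.1 := PolyTime.mul (PolyTime.const 8) hLw
  have hkn : ∀ w : (α × ℕ) × ℕ, 2 ^ (8 * L w.1.1) ≤ n w.1.1 ^ 8 := by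
    intro w
    rw [mul_comm, pow_mul]
    exact Nat.pow_le_pow_left (hLn _) 8
  have hmw : PolyTime fun w : (α × ℕ) × ℕ => mj a e (L w.1.1) := pmj a e hLw fun w => hL2 _
  unfold bitm cnm gb
  refine PolyTime.xor ?_ ?_
  · refine pip hPty hk (PolyTime.pow hnw 8) hkn hα1 hβ1 hmw ?_ ?_
    · exact pch a e hLw (fun w => hL2 _) hnw (fun w => hLn _) hQQ (PolyTime.div hs1 hqPw)
        (e + 1) le_rfl
    · exact phs Pool.Agent.Helper87.DT.ptn (pPj (cM c) hLw) hLw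
        (PolyTime.mod hs1 (pPj (cM c) hLw)) hvw fun w => Pj_pos (cM c) (hL2 _)
  · refine pip hPty hk (PolyTime.pow hnw 8) hkn hα1 hβ1 hmw ?_ hvw
    exact pch a e hLw (fun w => hL2 _) hnw (fun w => hLn _) hQQ
      (PolyTime.mod (PolyTime.div hs1 (pPj (cM c) hLw)) (pqj (cM c) hLw)) (e + 1) le_rfl

/-- packet CPM -/
theorem cpm (hPty : PtyStmt) : CpmStmt := by
  intro c a β e C
  have hs : PolyTime fun N : ℕ => N := PolyTime.id'
  have hL : PolyTime fun N : ℕ => lg N := (Pool.Agent.Helper3.DT.ptl ℕ _ _ _ hs hs hs).1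
  have hL2 : ∀ N : ℕ, 2 ≤ lg N := fun N => lg_two _
  have hn : PolyTime fun N : ℕ => 4 * N + 4 :=
    PolyTime.add (PolyTime.mul (PolyTime.const 4) hs) (PolyTime.const 4)
  have hLn : ∀ N : ℕ, 2 ^ lg N ≤ 4 * N + 4 := fun N => two_pow_lg _
  have hcap : PolyTime fun N : ℕ => (4 * N + 4) ^ C := PolyTime.pow hn C
  have hQ : PolyTime fun N : ℕ => Qk (8 * lg N) := pQk hL hn hLn
  have hzn : PolyTime fun N : ℕ => znm c a β e C N := by
    unfold znm Zcm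
    refine PolyTime.mul (PolyTime.mul ?_ (PolyTime.mul (PolyTime.mul hQ hQ) ?_)) ?_
    · exact (Pool.Agent.Helper3.DT.ptl ℕ _ _ _ hcap
        (PolyTime.add (ptj' a e hL) (PolyTime.const 2)) (pPj (cM c) hL)).2.2.2.1
    · exact pZlc a e hL hL2 hn hLn hcap (e + 1) le_rfl
    · exact (Pool.Agent.Helper3.DT.ptl ℕ _ _ _ hcap (pKj (cM c) a β e hL)
        (PolyTime.mul (pqj (cM c) hL)
          (PolyTime.mul (pqj (cM c) hL) (pPj (cM c) hL)))).2.2.2.1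
  have hbit := pbitm hPty c a β e hL hL2 hn hLn
  unfold genm
  refine PolyTime.list_map (f := fun N i => (List.range N).map (bitm c a β e (lg N) i))
    (PolyTime.range hzn) ?_
  exact PolyTime.list_map (f := fun (z : ℕ × ℕ) v => bitm c a β e (lg z.1) z.2 v)
    (PolyTime.range (PolyTime.fst PolyTime.id')) hbit

end Pool.Agent.Helper13.AF
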